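import Pool.Agent.Lib.MP_31bf45_nt.Arg

namespace Pool.Agent.Results.MP_31bf45_nt.ArgBound
open Complex

theorem result (ε : ℝ) (hε : 0 < ε) : ∃ T₀ : ℝ, ∀ T ≥ T₀, ∀ u v : ℝ → ℝ,
    ContinuousOn u (Set.Icc 0 T) → ContinuousOn v (Set.Icc (1 / 2) 2) → u 0 = 0 → v 2 = u T →
    (∀ t ∈ Set.Icc 0 T, riemannZeta (2 + t * I) = ‖riemannZeta (2 + t * I)‖ * exp (u t * I)) →
    (∀ x ∈ Set.Icc (1 / 2 : ℝ) 2,
      riemannZeta (x + T * I) = ‖riemannZeta (x + T * I)‖ * exp (v x * I)) →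
    |v (1 / 2) / Real.pi| ≤ (1 + ε) * Real.log T / (4 * Real.pi) :=
  Filter.eventually_atTop.1 (Pool.Agent.Lib.MP_31bf45_nt.argb hε)

end Pool.Agent.Results.MP_31bf45_nt.ArgBound
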