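import Pool.Agent.Lib.MP_31bf45_nt.Om.End

namespace Pool.Agent.Results.MP_31bf45_nt.ArgOmega
open Complex

theorem result : ∃ c : ℝ, 0 < c ∧ ∃ T₀ : ℝ, ∀ T ≥ T₀, ∀ ε : ℝ, ε = 1 ∨ ε = -1 →
    ∃ t ∈ Set.Icc T (T + T ^ (2 / 3 : ℝ)), (∀ x : ℝ, riemannZeta (x + t * I) ≠ 0) ∧
      ∃ u v : ℝ → ℝ, ContinuousOn u (Set.Icc 0 t) ∧ ContinuousOn v (Set.Icc (1 / 2) 2) ∧
        u 0 = 0 ∧ v 2 = u t ∧
        (∀ y ∈ Set.Icc 0 t, riemannZeta (2 + y * I) = ‖riemannZeta (2 + y * I)‖ * exp (u y * I)) ∧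
        (∀ x ∈ Set.Icc (1 / 2 : ℝ) 2,
          riemannZeta (x + t * I) = ‖riemannZeta (x + t * I)‖ * exp (v x * I)) ∧
        c * √(Real.log T / Real.log (Real.log T)) ≤ ε * (v (1 / 2) / Real.pi) := by
  obtain ⟨c, hc, T₀, h⟩ := Pool.Agent.Lib.MP_31bf45_nt.Om.omega
  refine ⟨c, hc, max T₀ 1, fun T hT ε hε => ?_⟩
  obtain ⟨t, ht, s, ⟨h1, u, v, a1, a2, a3, a4, a5, a6, rfl⟩, h2⟩ := h T (le_of_max_le_left hT) ε hε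
  exact ⟨t, ht, Pool.Agent.Lib.MP_31bf45_nt.Om.no_ord
    (zero_lt_one.trans_le ((le_of_max_le_right hT).trans ht.1)).ne' h1, u, v, a1, a2, a3, a4, a5, a6, h2⟩

end Pool.Agent.Results.MP_31bf45_nt.ArgOmega
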