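import Pool.Agent.Lib.MP_31bf45_nt.Fin

namespace Pool.Agent.Results.MP_31bf45_nt.ClusterBound

theorem result (ε : ℝ) (hε : 0 < ε) : ∃ T₀ : ℝ, ∀ T ≥ T₀, ∀ h : ℝ, 0 < h → h ≤ T → ∀ S : Finset ℂ,
    (∀ ρ ∈ S, 0 ≤ ρ.re ∧ ρ.re ≤ 1 ∧ T ≤ ρ.im ∧ ρ.im ≤ T + h) →
      ∑ ρ ∈ S, analyticOrderAt riemannZeta ρ ≤
        (⌊(1 + ε) * (1 + h) * Real.log T / (2 * Real.pi)⌋₊ : ℕ∞) :=
  Filter.eventually_atTop.1 (Pool.Agent.Lib.MP_31bf45_nt.cluster' hε)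

end Pool.Agent.Results.MP_31bf45_nt.ClusterBound
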