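import Pool.Agent.Lib.MP_31bf45_nt.Lf.End

namespace Pool.Agent.Results.MP_31bf45_nt.ClusterOmega

theorem result (a : ℝ) (ha : 0 < a) : ∃ c T₀ : ℝ, 0 < c ∧ ∀ T ≥ T₀, ∀ h : ℝ,
    a ≤ h * Real.log T → h * Real.log (Real.log T) ≤ 1 →
    ∀ ε : ℝ, ε = 1 ∨ ε = -1 → ∃ t ∈ Set.Icc T (T + T ^ (2 / 3 : ℝ)), ∃ S : Finset ℂ,
      (∀ ρ : ℂ, ρ ∈ S ↔ riemannZeta ρ = 0 ∧ t < ρ.im ∧ ρ.im < t + h) ∧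
      c * √(h * Real.log T) ≤ ε * ((∑ ρ ∈ S, analyticOrderNatAt riemannZeta ρ : ℕ) -
        h * Real.log T / (2 * Real.pi)) := by
  obtain ⟨c, T₀, h1, H⟩ := Pool.Agent.Lib.MP_31bf45_nt.Lf.cluster a ha
  refine ⟨c, T₀, h1, fun T hT h a b ε hε => ?_⟩
  obtain ⟨t, ht, m, ⟨S, hS, rfl⟩, hm⟩ := H T hT h a b ε hε
  exact ⟨t, ht, S, hS, hm⟩

end Pool.Agent.Results.MP_31bf45_nt.ClusterOmega
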